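import Mathlib

/-!
# HRT at the roots of unity, part B6-B8: definitions

Paper: `/team-store/HRT_paper.md`, B6-B9.
-/

set_option autoImplicit false

open MeasureTheory Complex Set
open scoped ComplexConjugate Real

namespace Pool.Agent.Helper34.HRV

/-- `c(u) = √(1 - u²/4)`. -/
noncomputable def cc (u : ℝ) : ℝ := Real.sqrt (1 - u ^ 2 / 4)

/-- The weight `sin (ρ c(ρ)) / sin ρ`. -/
noncomputable def wt (ρ : ℝ) : ℝ := Real.sin (ρ * cc ρ) / Real.sin ρ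

/-- The phase `c(ρ-y) + c(ρ-y')`. -/
noncomputable def th (y y' ρ : ℝ) : ℝ := cc (ρ - y) + cc (ρ - y')

/-- The domain `{ρ : ρ - y, ρ - y' ∈ (1/2, 3/2)}`. -/
def Dm (y y' : ℝ) : Set ℝ := Ioo (1 / 2 + max y y') (3 / 2 + min y y')

/-- The weight `w_{y,y'}`. -/
noncomputable def wy (y y' ρ : ℝ) : ℝ := wt ρ * Real.sin (π * th y y' ρ / 2)

/-- The total weight. -/
noncomputable def Wy (y y' : ℝ) : ℝ := ∫ ρ in Dm y y', wy y y' ρ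

/-- `W0 = 8 π² W` of the paper. -/
noncomputable def W0 : ℝ := Wy 0 0

/-- A kernel of the part `X_0`. -/
structure Ker (M : ℝ) (k : ℝ → ℂ) : Prop where
  meas : Measurable k
  bd : ∀ u, ‖k u‖ ≤ M
  supp : ∀ u, k u ≠ 0 → 1 / 2 < |u| ∧ |u| < 3 / 2

/-- A function on one line: measurable, integrable, supported in `|y| < 1/20`. -/
structure Lin (φ : ℝ → ℂ) : Prop where
  meas : Measurable φ
  int : Integrable φ
  supp : ∀ y, φ y ≠ 0 → |y| < 1 / 20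

/-- `X_0` applied to a function on the line at position `p`, evaluated at `p + ρ`. -/
noncomputable def Xl (k : ℝ → ℂ) (p : ℝ) (φ : ℝ → ℂ) (ρ : ℝ) : ℂ :=
  ∫ y, (k (ρ - y) * cexp (((cc (ρ - y) * (p + (ρ + y) / 2) : ℝ) : ℂ) * I) +
    conj (k (y - ρ)) * cexp (-(((cc (ρ - y) * (p + (ρ + y) / 2) : ℝ) : ℂ) * I))) * φ y

/-- The convolution kernel `Xk`. -/
noncomputable def Xk (k : ℝ → ℂ) (p : ℝ) (u : ℝ) : ℂ :=
  k u * cexp (((cc u * (p + u / 2) : ℝ) : ℂ) * I) +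
    conj (k (-u)) * cexp (-(((cc u * (p + u / 2) : ℝ) : ℂ) * I))

/-- `x(v) = k(v) e^{i c(v) p}`. -/
noncomputable def xx (k : ℝ → ℂ) (p : ℝ) (v : ℝ) : ℂ := k v * cexp (((cc v * p : ℝ) : ℂ) * I)

/-- The main term of one line as a function of `(y, y')`. -/
noncomputable def Ps (k : ℝ → ℂ) (p : ℝ) (y y' : ℝ) : ℂ :=
  ∫ ρ in Ioo (0 : ℝ) 2, (wt ρ : ℂ) * (k (ρ - y) * k (y' - ρ)) *
    cexp (((th y y' ρ * p : ℝ) : ℂ) * I)

/-- The main term of one line. -/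
noncomputable def Zl (k : ℝ → ℂ) (p : ℝ) (φ : ℝ → ℂ) : ℂ :=
  ∫ y, ∫ y', φ y * conj (φ y') * Ps k p y y'

/-- The contribution of one line to `T(f,f)` up to the sign: `-∫ |X_0 φ|² / (2 sin (ρ + δ))`. -/
noncomputable def Tl (k : ℝ → ℂ) (p δ : ℝ) (φ : ℝ → ℂ) : ℝ :=
  -∫ ρ, (2 * Real.sin (ρ + δ))⁻¹ * ‖Xl k p φ ρ‖ ^ 2

end Pool.Agent.Helper34.HRV

namespace Pool.Agent.Helper34.HRV

/-- `sg_n = (-1)^n`. -/
def sg (n : ℤ) : ℝ := if Even n then 1 else -1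

/-- The displacement of the line `n`. -/
noncomputable def dl (δ : ℝ) (n : ℤ) : ℝ := if Even n then 0 else δ

/-- The position of the line `n`. -/
noncomputable def Pt (δ : ℝ) (n : ℤ) : ℝ := π / 2 + π * n + dl δ n

/-- Fibre data: `a k` is the amplitude of the dimer `(2k-1, 2k)`. -/
structure Fib (cf : ℝ → ℝ) (ζ : ℤ → ℂ) (a : ℤ → ℝ → ℂ) : Prop where
  cf_meas : Measurable cf
  cf_le : ∀ y, |cf y| ≤ 1
  ζ_one : ∀ k, ‖ζ k‖ = 1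
  a_meas : ∀ k, Measurable (a k)
  a_supp : ∀ k y, a k y ≠ 0 → |y| < 1 / 20
  a_sum : ∀ y, Summable fun k => ‖a k y‖ ^ 2
  a_int : Integrable fun y => ∑' k, ‖a k y‖ ^ 2

/-- `|a(y)|` (norm in `ℓ²`). -/
noncomputable def An (a : ℤ → ℝ → ℂ) (y : ℝ) : ℝ := Real.sqrt (∑' k, ‖a k y‖ ^ 2)

/-- `∫ |a|`. -/
noncomputable def a1 (a : ℤ → ℝ → ℂ) : ℝ := ∫ y, An a y

/-- `Q_k = ∫ |a_k|² / |a|`. -/
noncomputable def Qi (a : ℤ → ℝ → ℂ) (k : ℤ) : ℝ := ∫ y, ‖a k y‖ ^ 2 / An a y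

/-- The lines of the vector with amplitudes `a`. -/
noncomputable def fl (cf : ℝ → ℝ) (ζ : ℤ → ℂ) (a : ℤ → ℝ → ℂ) (n : ℤ) (y : ℝ) : ℂ :=
  if Even n then ζ (n / 2) * (Real.sqrt ((1 - cf y) / 2) : ℂ) * a (n / 2) y
  else (Real.sqrt ((1 + cf y) / 2) : ℂ) * a ((n + 1) / 2) y

/-- The bracket `s(y) s(y') - e^{-iθ(π-δ)} c(y) c(y')` for `x = cf y`, `x' = cf y'`. -/
noncomputable def br (δ θ x x' : ℝ) : ℂ :=
  ((Real.sqrt ((1 - x) / 2) * Real.sqrt ((1 - x') / 2) : ℝ) : ℂ) -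
    cexp (-(((θ * (π - δ) : ℝ) : ℂ) * I)) *
      ((Real.sqrt ((1 + x) / 2) * Real.sqrt ((1 + x') / 2) : ℝ) : ℂ)

/-- Near-optimality (★) for the amplitudes `a` with energy weight `e` on `|y| < 1/20`. -/
structure Star (e : ℝ → ℝ) (Λ κ ε : ℝ) (a : ℤ → ℝ → ℂ) : Prop where
  int : Integrable fun y => e y * An a y ^ 2
  le : (1 - ε) * (∫ y, e y * An a y ^ 2) ≤
    (1 + ε) * Λ⁻¹ * (a1 a ^ 2 - κ * (a1 a ^ 2 - ∑' j, Qi a j ^ 2))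

end Pool.Agent.Helper34.HRV
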